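import Pool.Agent.Q276.KZ.Stm
import Mathlib.Analysis.Complex.JensenFormula

set_option autoImplicit false

/-!
Project KZ of helper276, job HP: the Poisson integral in the half plane for the `p`-th power of the
modulus of a Dirichlet polynomial.
-/

namespace Pool.Agent.Q203.KZ

open MeasureTheory Filter Finset
open Pool.Agent.Q276.CD Pool.Agent.Q276.KZ

/-- subharmonicity of `|g|^p` -/
lemma hp_sub (g : ℂ → ℂ) (r p : ℝ) (hr : 0 < r) (hp : 0 < p)
    (hg : AnalyticOnNhd ℂ g (Metric.closedBall 0 r)) :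
    ‖g 0‖ ^ p ≤ Real.circleAverage (fun z => ‖g z‖ ^ p) 0 r := by
  have hcont : ContinuousOn (fun z => ‖g z‖ ^ p) (Metric.sphere 0 r) := by
    have h1 : ContinuousOn g (Metric.sphere 0 r) :=
      hg.continuousOn.mono Metric.sphere_subset_closedBall
    exact h1.norm.rpow_const (fun x _ => Or.inr hp.le)
  have hci : CircleIntegrable (fun z => ‖g z‖ ^ p) 0 r := hcont.circleIntegrable hr.le
  by_cases h0 : g 0 = 0
  · rw [h0, norm_zero, Real.zero_rpow hp.ne']
    exact Real.circleAverage_nonneg_of_nonneg fun z _ => by positivity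
  have habs : |r| = r := abs_of_pos hr
  have hJ := AnalyticOnNhd.circleAverage_log_norm (c := 0) (R := r) (f := g) hr.ne'
    (by rw [habs]; exact hg) h0
  have hJ2 : Real.log ‖g 0‖ ≤ Real.circleAverage (fun z => Real.log ‖g z‖) 0 r := by
    rw [hJ]
    have : 0 ≤ ∑ᶠ u, (MeromorphicOn.divisor g (Metric.closedBall 0 |r|) u : ℝ) *
        Real.log (r * ‖0 - u‖⁻¹) := by
      refine finsum_nonneg fun u => ?_
      by_cases hu : u ∈ Metric.closedBall (0:ℂ) |r|
      · refine mul_nonneg ?_ ?_
        · have h := (MeromorphicOn.AnalyticOnNhd.divisor_nonneg (by rw [habs]; exact hg :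
            AnalyticOnNhd ℂ g (Metric.closedBall 0 |r|))) u
          exact_mod_cast h
        · rw [zero_sub, norm_neg]
          by_cases hu0 : u = 0
          · simp [hu0]
          · apply Real.log_nonneg
            rw [mem_closedBall_zero_iff, habs] at hu
            have : 0 < ‖u‖ := norm_pos_iff.mpr hu0
            rw [← div_eq_mul_inv, le_div_iff₀ this]
            linarith
      · simp [hu]
    linarith
  have hne : ∀ᶠ z in Filter.codiscreteWithin (Metric.sphere (0:ℂ) |r|), g z ≠ 0 := by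
    rw [habs]
    apply MeromorphicOn.eventually_codiscreteWithin_apply_ne_zero
      (hg.mono Metric.sphere_subset_closedBall).meromorphicOn
    intro x hx htop
    rw [meromorphicOrderAt_eq_top_iff] at htop
    have hfr : ∃ᶠ z in nhdsWithin x {x}ᶜ, g z = 0 := htop.frequently
    have := hg.eqOn_zero_of_preconnected_of_frequently_eq_zero
      (convex_closedBall (0:ℂ) r).isPreconnected (Metric.sphere_subset_closedBall hx) hfr
    exact h0 (this (Metric.mem_closedBall_self hr.le))
  set A : ℝ := ‖g 0‖ ^ p with hA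
  have hgp : 0 < ‖g 0‖ := norm_pos_iff.mpr h0
  have hApos : 0 < A := Real.rpow_pos_of_pos hgp p
  have hlogA : Real.log A = p * Real.log ‖g 0‖ := Real.log_rpow hgp p
  have hcg : (fun z => Real.exp (p * Real.log ‖g z‖)) =ᶠ[Filter.codiscreteWithin
      (Metric.sphere (0:ℂ) |r|)] (fun z => ‖g z‖ ^ p) := by
    filter_upwards [hne] with z hz
    rw [Real.rpow_def_of_pos (norm_pos_iff.mpr hz), mul_comm]
  rw [← Real.circleAverage_congr_codiscreteWithin hcg hr.ne']
  have hci1 : CircleIntegrable (fun z => Real.exp (p * Real.log ‖g z‖)) 0 r :=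
    hci.congr_codiscreteWithin hcg.symm
  have hlogi : CircleIntegrable (fun z => Real.log ‖g z‖) 0 r := by
    apply MeromorphicOn.circleIntegrable_log_norm
    rw [habs]
    exact (hg.mono Metric.sphere_subset_closedBall).meromorphicOn
  have hmono : Real.circleAverage (fun z => A * (1 - Real.log A) + (A * p) • Real.log ‖g z‖) 0 r ≤
      Real.circleAverage (fun z => Real.exp (p * Real.log ‖g z‖)) 0 r := by
    apply Real.circleAverage_mono _ hci1
    · intro z _
      have h1 := Real.add_one_le_exp (p * Real.log ‖g z‖ - Real.log A)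
      have h2 : Real.exp (p * Real.log ‖g z‖) = A * Real.exp (p * Real.log ‖g z‖ - Real.log A) := by
        rw [Real.exp_sub, Real.exp_log hApos]; field_simp
      show A * (1 - Real.log A) + (A * p) * Real.log ‖g z‖ ≤ Real.exp (p * Real.log ‖g z‖)
      rw [h2]
      have := mul_le_mul_of_nonneg_left h1 hApos.le
      nlinarith
    · apply CircleIntegrable.add
      · exact circleIntegrable_const _ _ _
      · exact hlogi.const_fun_smul
  have hav : Real.circleAverage (fun z => A * (1 - Real.log A) + (A * p) • Real.log ‖g z‖) 0 r =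
      A * (1 - Real.log A) + (A * p) * Real.circleAverage (fun z => Real.log ‖g z‖) 0 r := by
    rw [Real.circleAverage_fun_add (circleIntegrable_const _ _ _) hlogi.const_fun_smul,
      Real.circleAverage_const, Real.circleAverage_fun_smul, smul_eq_mul]
  rw [hav] at hmono
  have h3 : A * p * Real.log ‖g 0‖ ≤ A * p * Real.circleAverage (fun z => Real.log ‖g z‖) 0 r :=
    mul_le_mul_of_nonneg_left hJ2 (by positivity)
  rw [hlogA] at hmono
  nlinarith

/-- boundedness of a Dirichlet polynomial to the right of the critical line -/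
lemma hp_bd (a : ℕ → ℂ) (Y : ℕ) : ∃ B : ℝ, 0 ≤ B ∧ ∀ s : ℂ, 1 / 2 ≤ s.re → ‖Dp a Y s‖ ≤ B := by
  refine ⟨∑ n ∈ Finset.Icc 1 Y, ‖a n‖, Finset.sum_nonneg fun _ _ => norm_nonneg _, fun s hs => ?_⟩
  unfold Dp
  refine (norm_sum_le _ _).trans (Finset.sum_le_sum fun n hn => ?_)
  have hn1 : 1 ≤ n := (Finset.mem_Icc.mp hn).1
  rw [norm_mul, Complex.norm_natCast_cpow_of_pos hn1]
  have : (n:ℝ) ^ (-s).re ≤ 1 := by
    apply Real.rpow_le_one_of_one_le_of_nonpos
    · exact_mod_cast hn1
    · rw [Complex.neg_re]; linarith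
  nlinarith [norm_nonneg (a n)]

/-- a Dirichlet polynomial is entire -/
lemma hp_diff (a : ℕ → ℂ) (Y : ℕ) : Differentiable ℂ (Dp a Y) := by
  unfold Dp
  apply Differentiable.fun_sum
  intro n hn
  have hn1 : 1 ≤ n := (Finset.mem_Icc.mp hn).1
  have hn0 : (n:ℂ) ≠ 0 := by exact_mod_cast (by omega : n ≠ 0)
  intro s
  apply DifferentiableAt.const_mul
  exact (differentiableAt_id.neg).const_cpow (Or.inl hn0)

/-- the map of the disc to the half plane -/
noncomputable def ph (t Δ : ℝ) (z : ℂ) : ℂ := cl t + (Δ : ℂ) * ((1 - z) / (1 + z))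

lemma ph_re (t Δ : ℝ) (z : ℂ) (hΔ : 0 < Δ) (hz : ‖z‖ < 1) : 1 / 2 ≤ (ph t Δ z).re := by
  have h1 : (1 + z) ≠ 0 := by
    intro h
    have : z = -1 := by linear_combination h
    rw [this] at hz; simp at hz
  have h2 : 0 ≤ ((1 - z) / (1 + z)).re := by
    rw [Complex.div_re, ← add_div]
    apply div_nonneg _ (Complex.normSq_nonneg _)
    have h3 : z.re * z.re + z.im * z.im < 1 := by
      have h4 : Complex.normSq z < 1 := by
        rw [Complex.normSq_eq_norm_sq]; nlinarith [norm_nonneg z]
      rwa [Complex.normSq_apply] at h4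
    simp only [Complex.sub_re, Complex.add_re, Complex.one_re, Complex.sub_im, Complex.add_im,
      Complex.one_im]
    nlinarith
  unfold ph cl
  rw [Complex.add_re, Complex.re_ofReal_mul]
  have : (1 / 2 + (t:ℂ) * Complex.I).re = 1 / 2 := by simp
  rw [this]
  nlinarith

lemma ph_zero (t Δ : ℝ) : ph t Δ 0 = cl t + (Δ : ℂ) := by simp [ph]

lemma ph_an (t Δ : ℝ) (z : ℂ) (hz : ‖z‖ < 1) : DifferentiableAt ℂ (ph t Δ) z := by
  have h1 : (1 + z) ≠ 0 := by
    intro h
    have : z = -1 := by linear_combination h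
    rw [this] at hz; simp at hz
  unfold ph
  apply DifferentiableAt.const_add
  apply DifferentiableAt.const_mul
  apply DifferentiableAt.div
  · fun_prop
  · fun_prop
  · exact h1

/-- boundary values -/
lemma ph_bdy (t Δ θ : ℝ) (hθ1 : -Real.pi < θ) (hθ2 : θ < Real.pi) :
    ph t Δ (Complex.exp (θ * Complex.I)) = cl (t - Δ * Real.tan (θ / 2)) := by
  have hc : Real.cos (θ / 2) ≠ 0 := by
    apply ne_of_gt
    apply Real.cos_pos_of_mem_Ioo
    constructor <;> [linarith; linarith]
  have hcC : Complex.cos ((θ:ℂ) / 2) ≠ 0 := by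
    have : Complex.cos ((θ:ℂ) / 2) = ((Real.cos (θ / 2) : ℝ) : ℂ) := by push_cast; rfl
    rw [this]; exact_mod_cast hc
  have hsC : Complex.tan ((θ:ℂ) / 2) = Complex.sin ((θ:ℂ) / 2) / Complex.cos ((θ:ℂ) / 2) :=
    Complex.tan_eq_sin_div_cos _
  have he : Complex.exp (θ * Complex.I) =
      (Complex.cos ((θ:ℂ) / 2) + Complex.sin ((θ:ℂ) / 2) * Complex.I) ^ 2 := by
    rw [← Complex.exp_mul_I, ← Complex.exp_nat_mul]
    congr 1; push_cast; ring
  have hsc := Complex.sin_sq_add_cos_sq ((θ:ℂ) / 2)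
  set c := Complex.cos ((θ:ℂ) / 2)
  set s := Complex.sin ((θ:ℂ) / 2)
  have h1 : 1 + (c + s * Complex.I) ^ 2 = 2 * c * (c + s * Complex.I) := by
    linear_combination -hsc + 2 * s ^ 2 * Complex.I_sq - s^2 * (Complex.I_sq)
  have h2 : 1 - (c + s * Complex.I) ^ 2 = - 2 * s * Complex.I * (c + s * Complex.I) := by
    linear_combination -hsc + s ^ 2 * Complex.I_sq
  have h3 : (c + s * Complex.I) ≠ 0 := by
    intro h
    have := Complex.exp_ne_zero (θ * Complex.I)
    rw [he, h] at this
    simp at this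
  unfold ph cl
  rw [he, h1, h2]
  push_cast
  rw [hsC]
  have h4 : -2 * s * Complex.I * (c + s * Complex.I) / (2 * c * (c + s * Complex.I)) =
      -(s / c) * Complex.I := by
    rw [mul_div_mul_right _ _ h3]
    field_simp
  rw [h4]
  ring

/-- the inequality on the circle of radius `r` -/
lemma hp_circ (a : ℕ → ℂ) (Y : ℕ) (p Δ t r : ℝ) (hp : 0 < p) (hr : 0 < r) (hr1 : r < 1) :
    ‖Dp a Y (cl t + (Δ : ℂ))‖ ^ p ≤ (2 * Real.pi)⁻¹ *
      ∫ θ in (-Real.pi)..Real.pi, ‖Dp a Y (ph t Δ (circleMap 0 r θ))‖ ^ p := by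
  have hg : AnalyticOnNhd ℂ (fun z => Dp a Y (ph t Δ z)) (Metric.closedBall 0 r) := by
    intro z hz
    have hz1 : ‖z‖ < 1 := by
      rw [mem_closedBall_zero_iff] at hz; linarith
    rw [Complex.analyticAt_iff_eventually_differentiableAt]
    have : ∀ᶠ w in nhds z, ‖w‖ < 1 := (isOpen_lt continuous_norm continuous_const).mem_nhds hz1
    filter_upwards [this] with w hw
    exact (hp_diff a Y _).comp w (ph_an t Δ w hw)
  have h := hp_sub _ r p hr hp hg
  rw [ph_zero, Real.circleAverage_eq_integral_add (-Real.pi), smul_eq_mul] at h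
  rw [intervalIntegral.integral_comp_add_right
    (fun θ => ‖Dp a Y (ph t Δ (circleMap 0 r θ))‖ ^ p)] at h
  have e1 : 0 + -Real.pi = -Real.pi := by ring
  have e2 : 2 * Real.pi + -Real.pi = Real.pi := by ring
  rw [e1, e2] at h
  exact h

/-- the limit -/
lemma hp_lim (a : ℕ → ℂ) (Y : ℕ) (p Δ t : ℝ) (hp : 0 < p) (hΔ : 0 < Δ) :
    ‖Dp a Y (cl t + (Δ : ℂ))‖ ^ p ≤ (2 * Real.pi)⁻¹ *
      ∫ θ in (-Real.pi)..Real.pi, ‖Dp a Y (cl (t - Δ * Real.tan (θ / 2)))‖ ^ p := by
  obtain ⟨B, hB0, hB⟩ := hp_bd a Y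
  have hlim : Tendsto (fun n : ℕ => ∫ θ in (-Real.pi)..Real.pi,
      ‖Dp a Y (ph t Δ (circleMap 0 (1 - 1 / ((n:ℝ) + 2)) θ))‖ ^ p) atTop
      (nhds (∫ θ in (-Real.pi)..Real.pi, ‖Dp a Y (cl (t - Δ * Real.tan (θ / 2)))‖ ^ p)) := by
    have hr0 : ∀ n : ℕ, 0 < 1 - 1 / ((n:ℝ) + 2) := by
      intro n
      have : (0:ℝ) ≤ n := Nat.cast_nonneg n
      rw [sub_pos, div_lt_one (by linarith)]; linarith
    have hr1 : ∀ n : ℕ, 1 - 1 / ((n:ℝ) + 2) < 1 := by
      intro n
      have : (0:ℝ) ≤ n := Nat.cast_nonneg n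
      have : 0 < 1 / ((n:ℝ) + 2) := by positivity
      linarith
    have hnorm : ∀ (n : ℕ) (θ : ℝ), ‖circleMap 0 (1 - 1 / ((n:ℝ) + 2)) θ‖ < 1 := by
      intro n θ
      rw [norm_circleMap_zero, abs_of_pos (hr0 n)]; exact hr1 n
    apply intervalIntegral.tendsto_integral_filter_of_dominated_convergence (fun _ => B ^ p)
    · refine Eventually.of_forall fun n => ?_
      apply Continuous.aestronglyMeasurable
      apply Continuous.rpow_const _ (fun _ => Or.inr hp.le)
      apply Continuous.norm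
      apply (hp_diff a Y).continuous.comp
      rw [continuous_iff_continuousAt]
      intro θ
      exact ((ph_an t Δ _ (hnorm n θ)).continuousAt.comp (continuous_circleMap 0 _).continuousAt)
    · refine Eventually.of_forall fun n => Eventually.of_forall fun θ _ => ?_
      rw [Real.norm_of_nonneg (by positivity)]
      exact Real.rpow_le_rpow (norm_nonneg _) (hB _ (ph_re t Δ _ hΔ (hnorm n θ))) hp.le
    · exact intervalIntegrable_const
    · have hne : ∀ᵐ θ : ℝ, θ ≠ Real.pi := by
        simp [ae_iff, measure_singleton]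
      filter_upwards [hne] with θ hθne hθ
      rw [Set.uIoc_of_le (by linarith [Real.pi_pos])] at hθ
      have hθ1 : -Real.pi < θ := hθ.1
      have hθ2 : θ < Real.pi := lt_of_le_of_ne hθ.2 hθne
      rw [← ph_bdy t Δ θ hθ1 hθ2]
      have hcm : Tendsto (fun n : ℕ => circleMap 0 (1 - 1 / ((n:ℝ) + 2)) θ) atTop
          (nhds (Complex.exp (θ * Complex.I))) := by
        have h1 : Tendsto (fun n : ℕ => 1 - 1 / ((n:ℝ) + 2)) atTop (nhds 1) := by
          have : Tendsto (fun n : ℕ => 1 / ((n:ℝ) + 2)) atTop (nhds 0) := by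
            apply Tendsto.div_atTop tendsto_const_nhds
            exact tendsto_atTop_add_const_right _ _ tendsto_natCast_atTop_atTop
          simpa using this.const_sub 1
        have h2 : Tendsto (fun n : ℕ => ((1 - 1 / ((n:ℝ) + 2) : ℝ) : ℂ) *
            Complex.exp (θ * Complex.I)) atTop (nhds (((1:ℝ):ℂ) * Complex.exp (θ * Complex.I))) :=
          ((Complex.continuous_ofReal.tendsto _).comp h1).mul_const _
        rw [Complex.ofReal_one, one_mul] at h2
        refine h2.congr fun n => ?_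
        rw [circleMap_zero]
      have hph : ContinuousAt (ph t Δ) (Complex.exp (θ * Complex.I)) := by
        have h1 : (1 + Complex.exp (θ * Complex.I)) ≠ 0 := by
          intro h
          have h3 : Complex.exp (θ * Complex.I) = -1 := by linear_combination h
          have h4 : Real.cos θ = -1 := by
            have := congrArg Complex.re h3
            rw [Complex.exp_ofReal_mul_I_re] at this
            simpa using this
          have h5 : Real.sin θ = 0 := by
            have := congrArg Complex.im h3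
            rw [Complex.exp_ofReal_mul_I_im] at this
            simpa using this
          have h6 : θ = 0 := by
            rwa [Real.sin_eq_zero_iff_of_lt_of_lt hθ1 hθ2] at h5
          rw [h6, Real.cos_zero] at h4
          norm_num at h4
        unfold ph
        apply ContinuousAt.add continuousAt_const
        apply ContinuousAt.mul continuousAt_const
        apply ContinuousAt.div
        · fun_prop
        · fun_prop
        · exact h1
      have h7 : ContinuousAt (fun z => ‖Dp a Y (ph t Δ z)‖ ^ p) (Complex.exp (θ * Complex.I)) := by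
        apply ContinuousAt.rpow_const _ (Or.inr hp.le)
        apply ContinuousAt.norm
        exact ((hp_diff a Y).continuous.continuousAt).comp hph
      exact h7.tendsto.comp hcm
  have h2 := hlim.const_mul ((2 * Real.pi)⁻¹)
  refine ge_of_tendsto' h2 fun n => ?_
  have : (0:ℝ) ≤ n := Nat.cast_nonneg n
  apply hp_circ a Y p Δ t _ hp
  · rw [sub_pos, div_lt_one (by linarith)]; linarith
  · have : 0 < 1 / ((n:ℝ) + 2) := by positivity
    linarith

/-- the change of variables -/
lemma hp_cov (h : ℝ → ℝ) (Δ t : ℝ) (hΔ : 0 < Δ) :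
    (2 * Real.pi)⁻¹ * ∫ θ in (-Real.pi)..Real.pi, h (t - Δ * Real.tan (θ / 2)) =
    Δ / Real.pi * ∫ u : ℝ, h u / (Δ ^ 2 + (t - u) ^ 2) := by
  have h1 : ∫ θ in (-Real.pi)..Real.pi, h (t - Δ * Real.tan (θ / 2)) =
      2 * ∫ x in (-(Real.pi / 2))..(Real.pi / 2), h (t - Δ * Real.tan x) := by
    have := intervalIntegral.integral_comp_div (fun x => h (t - Δ * Real.tan x))
      (two_ne_zero) (a := -Real.pi) (b := Real.pi)
    rw [this, smul_eq_mul, neg_div]
  have h2 : ∫ x in (-(Real.pi / 2))..(Real.pi / 2), h (t - Δ * Real.tan x) =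
      ∫ v : ℝ, h (t - Δ * v) / (1 + v ^ 2) := by
    rw [intervalIntegral.integral_of_le (by linarith [Real.pi_pos]),
      integral_Ioc_eq_integral_Ioo, ← Real.range_arctan, ← Set.image_univ,
      integral_image_eq_integral_abs_deriv_smul MeasurableSet.univ
        (fun x _ => (Real.hasDerivAt_arctan x).hasDerivWithinAt) Real.arctan_injective.injOn,
      Measure.restrict_univ]
    congr 1
    funext v
    rw [Real.tan_arctan, smul_eq_mul, abs_of_pos (by positivity)]
    ring
  have h3 : ∫ v : ℝ, h (t - Δ * v) / (1 + v ^ 2) =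
      Δ⁻¹ * ∫ w : ℝ, h (t - w) / (1 + (w / Δ) ^ 2) := by
    have := MeasureTheory.Measure.integral_comp_mul_left
      (fun w => h (t - w) / (1 + (w / Δ) ^ 2)) Δ
    rw [abs_of_pos (inv_pos.mpr hΔ), smul_eq_mul] at this
    rw [← this]
    congr 1
    funext v
    rw [mul_div_cancel_left₀ v hΔ.ne']
  have h4 : ∫ w : ℝ, h (t - w) / (1 + (w / Δ) ^ 2) =
      ∫ u : ℝ, h u / (1 + ((t - u) / Δ) ^ 2) := by
    have := MeasureTheory.integral_sub_left_eq_self
      (fun u => h u / (1 + ((t - u) / Δ) ^ 2)) volume t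
    rw [← this]
    congr 1
    funext w
    rw [sub_sub_cancel]
  have h5 : ∫ u : ℝ, h u / (1 + ((t - u) / Δ) ^ 2) =
      Δ ^ 2 * ∫ u : ℝ, h u / (Δ ^ 2 + (t - u) ^ 2) := by
    rw [← MeasureTheory.integral_const_mul]
    congr 1
    funext u
    have : Δ ^ 2 + (t - u) ^ 2 ≠ 0 := by positivity
    field_simp
  rw [h1, h2, h3, h4, h5]
  have := Real.pi_pos.ne'
  field_simp

/-- **HP** -/
theorem t_HP : P_HP := by
  intro a Y p Δ t hp hΔ
  have h := hp_lim a Y p Δ t hp hΔ
  rw [hp_cov (fun u => ‖Dp a Y (cl u)‖ ^ p) Δ t hΔ] at h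
  exact h

end Pool.Agent.Q203.KZ
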