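import Pool.Agent.Q276.KZ.Stm

set_option autoImplicit false

/-!
Project KZ (helper276): the job RN (the size of `W`).
-/

namespace Pool.Agent.Q203.KZ

open Filter Finset
open Pool.Agent.Q276.CD Pool.Agent.Q276.KZ

lemma Su_b10 {e C3 T k : ℝ} {J : ℕ} {K b : ℕ → ℕ} (h : Su e C3 T k J K b) : ∀ j ≤ J, 10 ≤ b (j + 1) := by
  intro j
  induction j with
  | zero => intro _; exact h.b10
  | succ j ih => intro hj; exact (ih (by omega)).trans (h.mono (j + 1) hj)

/-- JOB RN -/
theorem t_RN : P_RN := by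
  intro e he he1 C3 hC3
  obtain ⟨C0, hC0, hR⟩ := R1_bd
  have hl2 : 0.69 < Real.log 2 := by have := Real.log_two_gt_d9; linarith
  set C1 : ℝ := 2 + (2 * Real.log C3 + Real.log 2 + C0) / Real.log 2 with hC1
  have hlC3 : 0 ≤ Real.log C3 := Real.log_nonneg hC3
  have hC1p : 0 ≤ C1 := by rw [hC1]; positivity
  have hE : 1 ≤ Real.exp C0 := Real.one_le_exp hC0
  refine ⟨C1 + C0 * Real.exp C0 + 3 * Real.exp C0, by positivity, ?_⟩
  filter_upwards [Real.tendsto_log_atTop.eventually_ge_atTop 1, eventually_ge_atTop (1:ℝ)] with T hL1 hT1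
  intro k J K b h
  set L := Real.log T with hL
  have hLpos : 0 < L := by linarith
  have hTpos : 0 < T := by linarith
  set V := Real.log L with hV
  have hexpV : Real.exp V = L := Real.exp_log hLpos
  have hk := h.k0
  have hk1 := h.k1
  have hlogk0 : 0 ≤ Real.log (1 / k) := Real.log_nonneg (by rw [le_div_iff₀ hk]; linarith)
  have hlog2k : Real.log (2 / k) = Real.log 2 + Real.log (1 / k) := by
    rw [← Real.log_mul (by norm_num) (by positivity)]; congr 1; ring
  have hlk2 : Real.log 2 ≤ Real.log (2 / k) := by linarith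
  have hKe : 100 ≤ (K J : ℝ) := by
    have h1 := h.big J le_rfl
    have h2 : 100 ≤ 1 / e := by rw [le_div_iff₀ he]; linarith
    linarith
  have hKpos : (0:ℝ) < K J := by linarith
  set N := b (J + 1) with hN
  have hN10 : 10 ≤ N := Su_b10 h J le_rfl
  have hNr : (10:ℝ) ≤ N := by exact_mod_cast hN10
  obtain ⟨M, hM⟩ := Nat.exists_eq_add_of_le' (show 1 ≤ N by omega)
  have hM9 : 9 ≤ M := by omega
  have hMr : (N : ℝ) = M + 1 := by rw [hM]; push_cast; ring
  have hbd := hR M (by omega)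
  rw [← hM] at hbd
  obtain ⟨hbd1, hbd2⟩ := abs_le.mp hbd
  have hlbJ := h.lb J le_rfl
  have htop := h.top
  rw [← hN] at hlbJ htop
  have hNT : (N : ℝ) ≤ T := by
    rw [← Real.log_le_log_iff (by linarith) hTpos, ← hL]
    refine hlbJ.trans ?_
    rw [div_le_iff₀ (by positivity)]
    have : 2 ≤ (K J : ℝ) ^ 2 := by nlinarith
    nlinarith
  have hMpos : (9:ℝ) ≤ M := by exact_mod_cast hM9
  have hlogM : 0 < Real.log M := Real.log_pos (by linarith)
  have hup : R1 N ≤ V + C0 := by
    have h1 : Real.log M ≤ L := Real.log_le_log (by linarith) (by linarith)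
    have h2 : Real.log (Real.log M) ≤ V := Real.log_le_log hlogM h1
    linarith
  have hlo : V - 2 * Real.log (K J) - Real.log 2 - C0 ≤ R1 N := by
    have h1 : Real.log N / 2 ≤ Real.log M := by
      rw [div_le_iff₀ (by norm_num), mul_comm, ← Real.log_rpow (by linarith)]
      apply Real.log_le_log (by linarith)
      rw [Real.rpow_ofNat, hMr]; nlinarith
    have h2 : L / (K J : ℝ) ^ 2 / 2 ≤ Real.log M := by linarith
    have h3 := Real.log_le_log (by positivity) h2
    rw [Real.log_div (by positivity) (by norm_num), Real.log_div hLpos.ne' (by positivity), Real.log_pow] at h3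
    push_cast at h3
    linarith
  have hlogK : Real.log (K J) ≤ Real.log C3 + Real.log (1 / k) := by
    rw [← Real.log_mul (by positivity) (by positivity)]
    apply Real.log_le_log hKpos
    have := h.KJ
    rwa [div_eq_mul_one_div] at this
  have hlo2 : V - C1 * Real.log (2 / k) ≤ R1 N := by
    have h1 : (2 * Real.log C3 + Real.log 2 + C0) ≤
        (2 * Real.log C3 + Real.log 2 + C0) / Real.log 2 * Real.log (2 / k) := by
      rw [div_mul_eq_mul_div, le_div_iff₀ (by linarith)]
      apply mul_le_mul_of_nonneg_left hlk2 (by positivity)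
    have h2 : C1 * Real.log (2 / k) = 2 * Real.log (2 / k) +
        (2 * Real.log C3 + Real.log 2 + C0) / Real.log 2 * Real.log (2 / k) := by rw [hC1]; ring
    rw [h2]; linarith
  have hLk : L ^ (k ^ 2) = Real.exp (k ^ 2 * V) := by
    rw [Real.rpow_def_of_pos hLpos, ← hV, mul_comm]
  have hLkpos : 0 < L ^ (k ^ 2) := by positivity
  have hk2 : k ^ 2 ≤ k := by nlinarith
  have hk21 : k ^ 2 ≤ 1 := by nlinarith
  have hk2p : 0 < k ^ 2 := by positivity
  have hlk2p : 0 < Real.log (2 / k) := by linarith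
  refine ⟨?_, ?_, ?_, ?_, hNT⟩
  · -- lower bound
    unfold WW
    rw [← hN]
    have h1 : k ^ 2 * (V - C1 * Real.log (2 / k)) ≤ k ^ 2 * R1 N := mul_le_mul_of_nonneg_left hlo2 hk2p.le
    have h2 : L ^ (k ^ 2) * (1 - k ^ 2 * (C1 * Real.log (2 / k))) ≤ Real.exp (k ^ 2 * R1 N) := by
      refine le_trans ?_ (Real.exp_le_exp.mpr h1)
      have h9 : Real.exp (k ^ 2 * (V - C1 * Real.log (2 / k))) =
          L ^ (k ^ 2) * Real.exp (-(k ^ 2 * (C1 * Real.log (2 / k)))) := by
        rw [hLk, ← Real.exp_add]; congr 1; ring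
      rw [h9]
      apply mul_le_mul_of_nonneg_left _ hLkpos.le
      have := Real.add_one_le_exp (-(k ^ 2 * (C1 * Real.log (2 / k))))
      linarith
    refine le_trans ?_ h2
    rw [mul_comm]
    apply mul_le_mul_of_nonneg_left _ hLkpos.le
    have h3 : k ^ 2 * (C1 * Real.log (2 / k)) ≤ k * (C1 * Real.log (2 / k)) :=
      mul_le_mul_of_nonneg_right hk2 (by positivity)
    have h4 : k * (C1 * Real.log (2 / k)) ≤ (C1 + C0 * Real.exp C0 + 3 * Real.exp C0) * k * Real.log (2 / k) := by
      have : 0 ≤ (C0 * Real.exp C0 + 3 * Real.exp C0) * k * Real.log (2 / k) := by positivity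
      nlinarith
    linarith
  · unfold WW
    rw [← hN]
    have h1 : k ^ 2 * R1 N ≤ k ^ 2 * (V + C0) := mul_le_mul_of_nonneg_left hup hk2p.le
    refine (Real.exp_le_exp.mpr h1).trans ?_
    rw [mul_add, Real.exp_add, ← hLk, mul_comm]
    apply mul_le_mul_of_nonneg_right _ hLkpos.le
    have hx0 : 0 ≤ k ^ 2 * C0 := by positivity
    have hx1 : k ^ 2 * C0 ≤ C0 := by nlinarith
    have h2 : Real.exp (k ^ 2 * C0) ≤ 1 + (k ^ 2 * C0) * Real.exp (k ^ 2 * C0) := by
      have h3 := Real.add_one_le_exp (-(k ^ 2 * C0))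
      have h4 : Real.exp (k ^ 2 * C0) * Real.exp (-(k ^ 2 * C0)) = 1 := by rw [← Real.exp_add]; simp
      have h5 := Real.exp_pos (k ^ 2 * C0)
      nlinarith
    have h3 : Real.exp (k ^ 2 * C0) ≤ Real.exp C0 := Real.exp_le_exp.mpr hx1
    have h4 : (k ^ 2 * C0) * Real.exp (k ^ 2 * C0) ≤ (k ^ 2 * C0) * Real.exp C0 :=
      mul_le_mul_of_nonneg_left h3 hx0
    have h5 : 0 ≤ (C1 + 3 * Real.exp C0) * k ^ 2 := by positivity
    nlinarith
  · -- R1 (b 0)
    have h1 : R1 (b 0) ≤ R1 (b 0 + 3 + 1) := R1_mono (by omega)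
    have h2 := (abs_le.mp (hR (b 0 + 3) (by omega))).2
    have hb0 := h.b0u
    have hb02 : (2:ℝ) ≤ b 0 := by exact_mod_cast h.b0
    have h3 : ((b 0 + 3 : ℕ) : ℝ) ≤ 7 / k ^ 2 := by
      push_cast
      have : (1:ℝ) ≤ 1 / k ^ 2 := by rw [le_div_iff₀ hk2p]; linarith
      have h7 : 7 / k ^ 2 = 7 * (1 / k ^ 2) := by ring
      rw [h7]; linarith
    have h4 : Real.log ((b 0 + 3 : ℕ) : ℝ) ≤ 3 * Real.log (2 / k) := by
      refine (Real.log_le_log (by positivity) h3).trans ?_
      have h5 : (7:ℝ) / k ^ 2 ≤ (2 / k) ^ 3 := by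
        rw [div_pow, div_le_div_iff₀ (by positivity) (by positivity)]
        have : k ^ 3 ≤ k ^ 2 := by nlinarith
        nlinarith
      refine (Real.log_le_log (by positivity) h5).trans ?_
      rw [Real.log_pow]; push_cast; exact le_rfl
    have h5 : 0 < Real.log ((b 0 + 3 : ℕ) : ℝ) := by
      apply Real.log_pos; push_cast; linarith
    have h6 : R1 (b 0) ≤ Real.log (3 * Real.log (2 / k)) + C0 := by
      have := Real.log_le_log h5 h4
      linarith
    calc Real.exp (R1 (b 0)) ≤ Real.exp (Real.log (3 * Real.log (2 / k)) + C0) := Real.exp_le_exp.mpr h6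
      _ = 3 * Real.log (2 / k) * Real.exp C0 := by rw [Real.exp_add, Real.exp_log (by positivity)]
      _ ≤ _ := by
        have : 0 ≤ (C1 + C0 * Real.exp C0) * Real.log (2 / k) := by positivity
        nlinarith
  · have h1 : -R1 N ≤ -V + 2 * Real.log (K J) + Real.log 2 + C0 := by linarith
    have h2 : L * Real.exp (-R1 N) ≤ L * Real.exp (-V + 2 * Real.log (K J) + Real.log 2 + C0) :=
      mul_le_mul_of_nonneg_left (Real.exp_le_exp.mpr h1) hLpos.le
    refine h2.trans ?_
    have h3 : L * Real.exp (-V + 2 * Real.log (K J) + Real.log 2 + C0) = 2 * Real.exp C0 * (K J : ℝ) ^ 2 := by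
      rw [Real.exp_add, Real.exp_add, Real.exp_add, Real.exp_neg, hexpV, Real.exp_log (by norm_num : (0:ℝ) < 2),
        two_mul (Real.log (K J)), Real.exp_add, Real.exp_log hKpos]
      field_simp
    rw [h3]
    apply mul_le_mul_of_nonneg_right _ (by positivity)
    have : 0 ≤ C0 * Real.exp C0 := by positivity
    linarith

end Pool.Agent.Q203.KZ
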