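import Pool.Agent.Q276.KZ.Stm

set_option autoImplicit false

/-!
Project KZ (helper276): the job SU (existence of the data).
-/

namespace Pool.Agent.Q203.KZ

open Filter Finset
open Pool.Agent.Q276.CD Pool.Agent.Q276.KZ

/-- the degrees -/
noncomputable def KK (C4 : ℝ) (K0 : ℕ) : ℕ → ℕ
  | 0 => K0
  | j + 1 => ⌈C4 * Real.log (KK C4 K0 j)⌉₊

/-- the boundaries -/
noncomputable def bb (L k : ℝ) (K : ℕ → ℕ) : ℕ → ℕ
  | 0 => ⌈1 / k ^ 2⌉₊ + 2
  | j + 1 => ⌊Real.exp (L / (K j : ℝ) ^ 2)⌋₊ + 1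

lemma ex_C3 (C4 D : ℝ) : ∃ C3 : ℝ, 1 ≤ C3 ∧ D ≤ Real.log C3 ∧ ∀ y : ℝ, C3 ≤ y → C4 * Real.log y + 1 ≤ y / 2 := by
  have h := Real.isLittleO_log_id_atTop.bound (show (0:ℝ) < 1 / (4 * (|C4| + 1)) by positivity)
  obtain ⟨x0, hx0⟩ := eventually_atTop.mp h
  refine ⟨max (max x0 4) (Real.exp D), ?_, ?_, ?_⟩
  · exact le_trans (by norm_num) (le_trans (le_max_right x0 4) (le_max_left _ _))
  · rw [Real.le_log_iff_exp_le (by positivity)]
    exact le_max_right _ _
  · intro y hy
    have h1 : x0 ≤ y := le_trans (le_trans (le_max_left x0 4) (le_max_left _ _)) hy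
    have h2 : (4:ℝ) ≤ y := le_trans (le_trans (le_max_right x0 4) (le_max_left _ _)) hy
    have h3 := hx0 y h1
    simp only [Real.norm_eq_abs, id] at h3
    rw [abs_of_pos (show (0:ℝ) < y by linarith)] at h3
    have h4 : C4 * Real.log y ≤ |C4| * |Real.log y| := by
      rw [← abs_mul]; exact le_abs_self _
    have h5 : |C4| * |Real.log y| ≤ y / 4 := by
      calc |C4| * |Real.log y| ≤ (|C4| + 1) * (1 / (4 * (|C4| + 1)) * y) := by
            apply mul_le_mul (by linarith) h3 (abs_nonneg _) (by positivity)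
        _ = y / 4 := by field_simp
    linarith

lemma ev_V (A C e : ℝ) (he : 0 < e) : ∀ᶠ V : ℝ in atTop, 1 ≤ V ∧ 40 * V + A ≤ V ^ 2 ∧
    (V + 15) * (V ^ 2 + 1) ^ 2 ≤ Real.exp V ∧ V + C ≤ e * V ^ 2 ∧
    (Real.exp (V / 5) ^ 2 + 3) * Real.log 4 ≤ e / 2 * Real.exp V := by
  have h1 : ∀ᶠ V : ℝ in atTop, V ^ 6 ≤ Real.exp V := by
    have h := (Real.isLittleO_pow_exp_atTop (n := 6)).bound (show (0:ℝ) < 1 by norm_num)
    filter_upwards [h, eventually_ge_atTop 0] with V hV hV0
    simp only [Real.norm_eq_abs, one_mul] at hV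
    rwa [abs_of_nonneg (by positivity), abs_of_pos (Real.exp_pos _)] at hV
  have hl4 : Real.log 4 ≤ 2 := by
    rw [Real.log_le_iff_le_exp (by norm_num)]
    have := Real.add_one_le_exp (1:ℝ)
    have h2 : Real.exp 2 = Real.exp 1 * Real.exp 1 := by rw [← Real.exp_add]; norm_num
    rw [h2]; nlinarith
  have h5 : ∀ᶠ V : ℝ in atTop, 16 / e ≤ Real.exp (V / 5) := by
    have : Tendsto (fun V : ℝ => Real.exp (V / 5)) atTop atTop :=
      Real.tendsto_exp_atTop.comp (tendsto_id.atTop_div_const (by norm_num))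
    exact this.eventually_ge_atTop _
  filter_upwards [h1, eventually_ge_atTop 100, eventually_ge_atTop (40 + |A|),
    eventually_ge_atTop (1 / e * (1 + |C|)), h5] with V h1 h100 hA hC h5
  have hVpos : (0:ℝ) < V := by linarith
  refine ⟨by linarith, ?_, ?_, ?_, ?_⟩
  · have hA1 := le_abs_self A
    have hA2 := abs_nonneg A
    nlinarith
  · refine le_trans ?_ h1
    have a1 : V + 15 ≤ 2 * V := by linarith
    have a2 : V ^ 2 + 1 ≤ 2 * V ^ 2 := by nlinarith
    have a3 : (V ^ 2 + 1) ^ 2 ≤ (2 * V ^ 2) ^ 2 := by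
      apply pow_le_pow_left₀ (by positivity) a2
    calc (V + 15) * (V ^ 2 + 1) ^ 2 ≤ (2 * V) * (2 * V ^ 2) ^ 2 := by
          apply mul_le_mul a1 a3 (by positivity) (by positivity)
      _ = 8 * V ^ 5 := by ring
      _ ≤ V * V ^ 5 := by
          apply mul_le_mul_of_nonneg_right (by linarith) (by positivity)
      _ = V ^ 6 := by ring
  · have hC1 := le_abs_self C
    have hC2 := abs_nonneg C
    have hC3 : 1 + |C| ≤ e * V := by
      have := mul_le_mul_of_nonneg_left hC he.le
      calc 1 + |C| = e * (1 / e * (1 + |C|)) := by field_simp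
        _ ≤ e * V := this
    have : V * (1 + |C|) ≤ V * (e * V) := mul_le_mul_of_nonneg_left hC3 hVpos.le
    nlinarith
  · set w := Real.exp (V / 5) with hw
    have hw1 : 1 ≤ w := by
      rw [hw]; exact Real.one_le_exp (by positivity)
    have hw5 : Real.exp V = w ^ 5 := by
      rw [hw, ← Real.exp_nat_mul]; congr 1; push_cast; ring
    rw [hw5]
    have hlog4 : 0 ≤ Real.log 4 := Real.log_nonneg (by norm_num)
    have b1 : (w ^ 2 + 3) * Real.log 4 ≤ (4 * w ^ 2) * 2 := by
      apply mul_le_mul _ hl4 hlog4 (by positivity)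
      nlinarith
    have b2 : 16 ≤ e * w := by
      have := mul_le_mul_of_nonneg_left h5 he.le
      calc (16:ℝ) = e * (16 / e) := by field_simp
        _ ≤ e * w := this
    have b3 : 8 * w ^ 2 ≤ e / 2 * w ^ 5 := by
      have : w ^ 2 * 16 ≤ w ^ 4 * (e * w) := by
        apply mul_le_mul _ b2 (by norm_num) (by positivity)
        exact pow_le_pow_right₀ hw1 (by norm_num)
      nlinarith
    linarith


section seq
variable {C4 C3 k : ℝ} {K0 : ℕ}

lemma KK_lb (j : ℕ) : C4 * Real.log (KK C4 K0 j) ≤ KK C4 K0 (j + 1) := Nat.le_ceil _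

lemma KK_step (h1 : 1 ≤ C3) (h0 : 0 ≤ C4) (hy : ∀ y : ℝ, C3 ≤ y → C4 * Real.log y + 1 ≤ y / 2)
    (hk : 0 < k) (hk1 : k ≤ 1) (j : ℕ) (hj : C3 / k < KK C4 K0 j) :
    2 * (KK C4 K0 (j + 1) : ℝ) ≤ KK C4 K0 j := by
  have h2 : C3 ≤ C3 / k := by
    rw [le_div_iff₀ hk]; nlinarith
  have h3 : C3 ≤ (KK C4 K0 j : ℝ) := by linarith
  have h4 := hy _ h3
  have h5 : 0 ≤ C4 * Real.log (KK C4 K0 j) := mul_nonneg h0 (Real.log_nonneg (by linarith))
  have h6 : (KK C4 K0 (j + 1) : ℝ) < C4 * Real.log (KK C4 K0 j) + 1 := Nat.ceil_lt_add_one h5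
  linarith

lemma KK_ex (h1 : 1 ≤ C3) (h0 : 0 ≤ C4) (hy : ∀ y : ℝ, C3 ≤ y → C4 * Real.log y + 1 ≤ y / 2)
    (hk : 0 < k) (hk1 : k ≤ 1) : ∃ J : ℕ, (KK C4 K0 J : ℝ) ≤ C3 / k := by
  by_contra hcon
  push Not at hcon
  have h2 : ∀ j : ℕ, 2 ^ j * (KK C4 K0 j : ℝ) ≤ K0 := by
    intro j
    induction j with
    | zero => simp [KK]
    | succ j ih =>
      have := KK_step h1 h0 hy hk hk1 j (hcon j)
      have h3 : (0:ℝ) < 2 ^ j := by positivity
      calc 2 ^ (j + 1) * (KK C4 K0 (j + 1) : ℝ) = 2 ^ j * (2 * (KK C4 K0 (j + 1) : ℝ)) := by ring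
        _ ≤ 2 ^ j * (KK C4 K0 j : ℝ) := mul_le_mul_of_nonneg_left this h3.le
        _ ≤ K0 := ih
  have h3 := h2 K0
  have h4 : (1:ℝ) ≤ KK C4 K0 K0 := by
    have := hcon K0
    have h5 : C3 ≤ C3 / k := by
      rw [le_div_iff₀ hk]; nlinarith
    linarith
  have h5 : (K0 : ℝ) < 2 ^ K0 := by exact_mod_cast Nat.lt_two_pow_self
  nlinarith

end seq

/-- JOB SU -/
theorem t_SU : P_SU := by
  intro e he
  obtain ⟨C, hC0, hR⟩ := R1_bd
  set D : ℝ := 1000 + 16 / e with hD
  have hD0 : 1000 ≤ D := by rw [hD]; have : 0 < 16 / e := by positivity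
                            linarith
  set C4 : ℝ := 200 + (3 + 2 * C) / e with hC4
  have hC4' : 200 ≤ C4 := by
    rw [hC4]; have : 0 ≤ (3 + 2 * C) / e := by positivity
    linarith
  obtain ⟨C3, hC31, hC3D, hC3y⟩ := ex_C3 C4 D
  refine ⟨C3, hC31, ?_⟩
  have hV := (Real.tendsto_log_atTop.comp Real.tendsto_log_atTop).eventually (ev_V D C e he)
  filter_upwards [hV, Real.tendsto_log_atTop.eventually_ge_atTop 1, eventually_ge_atTop (1:ℝ)] with T hV hL1 hT1
  simp only [Function.comp_apply] at hV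
  set L := Real.log T with hL
  set V := Real.log L with hVd
  obtain ⟨v1, v2, v3, v4, v5⟩ := hV
  have hLpos : 0 < L := by linarith
  have hexpV : Real.exp V = L := Real.exp_log hLpos
  have hTpos : 0 < T := by linarith
  intro k hk hk1
  set w := Real.exp (V / 5) with hw
  have hw1 : 1 ≤ w := Real.one_le_exp (by linarith)
  have hwL : w ^ 5 = L := by
    rw [hw, ← Real.exp_nat_mul, ← hexpV]; congr 1; push_cast; ring
  have hwk : L ^ (-(1 / 5) : ℝ) = w⁻¹ := by
    rw [Real.rpow_def_of_pos hLpos, hw, ← Real.exp_neg]; congr 1; ring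
  have hkpos : 0 < k := lt_of_lt_of_le (by positivity) hk
  have hkw : 1 / k ≤ w := by
    rw [hwk] at hk
    rw [div_le_iff₀ hkpos]
    have := mul_le_mul_of_nonneg_left hk (show (0:ℝ) ≤ w by linarith)
    rwa [mul_inv_cancel₀ (by positivity)] at this
  have hk2 : 1 / k ^ 2 ≤ w ^ 2 := by
    have : (1 / k) ^ 2 ≤ w ^ 2 := pow_le_pow_left₀ (by positivity) hkw 2
    rwa [div_pow, one_pow] at this
  have hlogk0 : 0 ≤ Real.log (1 / k) := Real.log_nonneg (by rw [le_div_iff₀ hkpos]; linarith)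
  have hlogk : Real.log (1 / k) ≤ V / 5 := by
    rw [Real.log_le_iff_le_exp (by positivity)]; exact hkw
  set K0 : ℕ := ⌈V ^ 2⌉₊ with hK0
  set K : ℕ → ℕ := KK C4 K0 with hK
  have hC40 : 0 ≤ C4 := by linarith
  have hex := KK_ex (C4 := C4) (K0 := K0) hC31 hC40 hC3y hkpos hk1
  classical
  set J := Nat.find hex with hJ
  have hKJ : (K J : ℝ) ≤ C3 / k := Nat.find_spec hex
  have hmin : ∀ j < J, C3 / k < K j := fun j hj => not_le.mp (Nat.find_min hex hj)
  have hstep : ∀ j < J, 2 * (K (j + 1) : ℝ) ≤ K j := fun j hj =>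
    KK_step hC31 hC40 hC3y hkpos hk1 j (hmin j hj)
  have hKnn : ∀ j, (0:ℝ) ≤ K j := fun j => Nat.cast_nonneg _
  have hK0u : (K 0 : ℝ) ≤ V ^ 2 + 1 := by
    have : (K0 : ℝ) < V ^ 2 + 1 := Nat.ceil_lt_add_one (by positivity)
    exact this.le
  have hK0l : V ^ 2 ≤ (K 0 : ℝ) := Nat.le_ceil _
  have hC3k : C3 ≤ C3 / k := by rw [le_div_iff₀ hkpos]; nlinarith
  have hlogC3k : Real.log (C3 / k) = Real.log C3 + Real.log (1 / k) := by
    rw [div_eq_mul_one_div, Real.log_mul (by positivity) (by positivity)]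
  have hlogK : ∀ j < J, D ≤ Real.log (K j) ∧ Real.log C3 + Real.log (1 / k) ≤ Real.log (K j) := by
    intro j hj
    have h1 : Real.log (C3 / k) ≤ Real.log (K j) := Real.log_le_log (by positivity) (hmin j hj).le
    rw [hlogC3k] at h1
    exact ⟨by linarith, h1⟩
  -- lower bound for the last degree
  have hKJl : 200 * Real.log (1 / k) + D ≤ K J := by
    rcases Nat.eq_zero_or_pos J with h0 | hpos
    · rw [h0]
      have : 200 * Real.log (1 / k) ≤ 40 * V := by linarith
      linarith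
    · obtain ⟨j, hj⟩ := Nat.exists_eq_add_of_le' hpos
      have hjJ : j < J := by omega
      have h1 := (hlogK j hjJ).2
      have h2 : C4 * Real.log (K j) ≤ K (j + 1) := KK_lb j
      rw [hj]
      have h3 : C4 * (Real.log C3 + Real.log (1 / k)) ≤ C4 * Real.log (K j) :=
        mul_le_mul_of_nonneg_left h1 hC40
      have h4 : 200 * Real.log (1 / k) ≤ C4 * Real.log (1 / k) := mul_le_mul_of_nonneg_right hC4' hlogk0
      have h5 : D ≤ C4 * Real.log C3 := by nlinarith
      nlinarith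
  have hKJ1000 : 1000 ≤ (K J : ℝ) := by linarith
  -- growth downwards
  have hgrow : ∀ i ≤ J, 2 ^ i * (K J : ℝ) ≤ K (J - i) := by
    intro i
    induction i with
    | zero => intro _; simp
    | succ i ih =>
      intro hi
      have h1 := ih (by omega)
      have h2 := hstep (J - (i + 1)) (by omega)
      have h3 : J - (i + 1) + 1 = J - i := by omega
      rw [h3] at h2
      calc 2 ^ (i + 1) * (K J : ℝ) = 2 * (2 ^ i * (K J : ℝ)) := by ring
        _ ≤ 2 * (K (J - i) : ℝ) := by linarith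
        _ ≤ _ := h2
  have hKge : ∀ j ≤ J, (K J : ℝ) ≤ K j := by
    intro j hj
    have h1 := hgrow (J - j) (by omega)
    have h2 : J - (J - j) = j := by omega
    rw [h2] at h1
    have h3 : (1:ℝ) ≤ 2 ^ (J - j) := one_le_pow₀ (by norm_num)
    nlinarith
  have hKle : ∀ j ≤ J, (K j : ℝ) ≤ K 0 := by
    intro j
    induction j with
    | zero => intro _; exact le_refl _
    | succ j ih =>
      intro hj
      have h1 := ih (by omega)
      have h2 := hstep j (by omega)
      have h3 := hKnn (j + 1)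
      linarith
  have hKpos : ∀ j ≤ J, 0 < (K j : ℝ) := fun j hj => by have := hKge j hj; linarith
  -- sum of the reciprocals
  have hrec : ∑ j ∈ range (J + 1), 1 / (K j : ℝ) ≤ 2 / K J := by
    rw [← sum_range_reflect]
    have : ∀ i ∈ range (J + 1), 1 / (K (J + 1 - 1 - i) : ℝ) ≤ (1 / 2) ^ i * (1 / K J) := by
      intro i hi
      rw [mem_range] at hi
      have h1 := hgrow i (by omega)
      have h2 : J + 1 - 1 - i = J - i := by omega
      rw [h2]
      calc 1 / (K (J - i) : ℝ) ≤ 1 / (2 ^ i * (K J : ℝ)) :=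
            one_div_le_one_div_of_le (mul_pos (by positivity) (by linarith)) h1
        _ = (1 / 2) ^ i * (1 / K J) := by
            rw [one_div_pow]; field_simp
    calc ∑ i ∈ range (J + 1), 1 / (K (J + 1 - 1 - i) : ℝ)
        ≤ ∑ i ∈ range (J + 1), (1 / 2) ^ i * (1 / (K J : ℝ)) := sum_le_sum this
      _ = (∑ i ∈ range (J + 1), ((1:ℝ) / 2) ^ i) * (1 / (K J : ℝ)) := by rw [sum_mul]
      _ ≤ 2 * (1 / (K J : ℝ)) := mul_le_mul_of_nonneg_right (sum_geometric_two_le _) (by positivity)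
      _ = 2 / K J := by ring
  -- the exponential sum
  have herr : ∑ j ∈ range (J + 1), Real.exp (-((K j : ℝ) / 100)) ≤ k ^ 2 := by
    rw [← sum_range_reflect]
    have hterm : ∀ i ∈ range (J + 1), Real.exp (-((K (J + 1 - 1 - i) : ℝ) / 100)) ≤
        (1 / 2) ^ i * Real.exp (-((K J : ℝ) / 100)) := by
      intro i hi
      rw [mem_range] at hi
      have h1 := hgrow i (by omega)
      have h2 : J + 1 - 1 - i = J - i := by omega
      rw [h2]
      have h3 : (i : ℝ) + 1 ≤ 2 ^ i := by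
        have := Nat.lt_two_pow_self (n := i)
        exact_mod_cast this
      have h4 : (K J : ℝ) + 100 * i ≤ K (J - i) := by
        have h5 : ((i : ℝ) + 1) * (K J : ℝ) ≤ 2 ^ i * (K J : ℝ) := mul_le_mul_of_nonneg_right h3 (hKnn J)
        have h6 : (0:ℝ) ≤ i := Nat.cast_nonneg _
        nlinarith
      have h7 : ((1:ℝ) / 2) ^ i = Real.exp (-(i * Real.log 2)) := by
        rw [Real.exp_neg, ← Real.rpow_natCast, Real.rpow_def_of_pos (by norm_num), one_div,
          Real.log_inv, ← Real.exp_neg]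
        congr 1; ring
      rw [h7, ← Real.exp_add]
      apply Real.exp_le_exp.mpr
      have h8 : Real.log 2 ≤ 1 := by
        have := Real.log_two_lt_d9; linarith
      have h9 : (i : ℝ) * Real.log 2 ≤ i := by
        have h6 : (0:ℝ) ≤ i := Nat.cast_nonneg _
        nlinarith
      linarith
    calc ∑ i ∈ range (J + 1), Real.exp (-((K (J + 1 - 1 - i) : ℝ) / 100))
        ≤ ∑ i ∈ range (J + 1), (1 / 2) ^ i * Real.exp (-((K J : ℝ) / 100)) := sum_le_sum hterm
      _ = (∑ i ∈ range (J + 1), ((1:ℝ) / 2) ^ i) * Real.exp (-((K J : ℝ) / 100)) := by rw [sum_mul]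
      _ ≤ 2 * Real.exp (-((K J : ℝ) / 100)) :=
          mul_le_mul_of_nonneg_right (sum_geometric_two_le _) (Real.exp_pos _).le
      _ ≤ 2 * Real.exp (-(2 * Real.log (1 / k) + 10)) := by
          apply mul_le_mul_of_nonneg_left _ (by norm_num)
          apply Real.exp_le_exp.mpr; linarith
      _ ≤ k ^ 2 := by
          have h1 : Real.exp (-(2 * Real.log (1 / k) + 10)) = k ^ 2 * Real.exp (-10) := by
            have h2 : Real.log (1 / k) = - Real.log k := by rw [one_div, Real.log_inv]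
            rw [h2, show -(2 * -Real.log k + 10) = Real.log k + Real.log k + (-10) by ring,
              Real.exp_add, Real.exp_add, Real.exp_log hkpos]
            ring
          rw [h1]
          have h3 : Real.exp (-10) ≤ 1 / 2 := by
            rw [Real.exp_neg, ← one_div]
            apply one_div_le_one_div_of_le (by norm_num)
            have := Real.add_one_le_exp (10:ℝ); linarith
          have h4 : 0 ≤ k ^ 2 := by positivity
          nlinarith
  -- the boundaries
  set b : ℕ → ℕ := bb L k K with hb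
  have hx : ∀ j ≤ J, V + 15 ≤ L / (K j : ℝ) ^ 2 := by
    intro j hj
    have h1 := hKpos j hj
    rw [le_div_iff₀ (by positivity)]
    have h2 : (K j : ℝ) ^ 2 ≤ (V ^ 2 + 1) ^ 2 := pow_le_pow_left₀ h1.le (by linarith [hKle j hj]) 2
    calc (V + 15) * (K j : ℝ) ^ 2 ≤ (V + 15) * (V ^ 2 + 1) ^ 2 :=
          mul_le_mul_of_nonneg_left h2 (by linarith)
      _ ≤ Real.exp V := v3
      _ = L := hexpV
  have hxK : ∀ j ≤ J, L / (K j : ℝ) ^ 2 ≤ L := by
    intro j hj
    apply div_le_self hLpos.le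
    have := hKge j hj
    nlinarith
  have hbs : ∀ j, b (j + 1) = ⌊Real.exp (L / (K j : ℝ) ^ 2)⌋₊ + 1 := fun j => rfl
  have hbl : ∀ j, Real.exp (L / (K j : ℝ) ^ 2) ≤ b (j + 1) := by
    intro j
    rw [hbs]; push_cast
    exact (Nat.lt_floor_add_one _).le
  have hbu : ∀ j, (b (j + 1) : ℝ) ≤ Real.exp (L / (K j : ℝ) ^ 2) + 1 := by
    intro j
    rw [hbs]; push_cast
    have := Nat.floor_le (Real.exp_pos (L / (K j : ℝ) ^ 2)).le
    linarith
  have hlb : ∀ j ≤ J, Real.log (b (j + 1)) ≤ 2 * L / (K j : ℝ) ^ 2 := by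
    intro j hj
    have h1 := hx j hj
    have h2 : (0:ℝ) < b (j + 1) := lt_of_lt_of_le (Real.exp_pos _) (hbl j)
    have h3 : (b (j + 1) : ℝ) ≤ Real.exp (L / (K j : ℝ) ^ 2 + 1) := by
      refine (hbu j).trans ?_
      rw [Real.exp_add]
      have h4 : 1 ≤ Real.exp (L / (K j : ℝ) ^ 2) := Real.one_le_exp (by linarith)
      have h5 : 2 ≤ Real.exp 1 := by have := Real.add_one_le_exp (1:ℝ); linarith
      nlinarith
    have h4 : Real.log (b (j + 1)) ≤ L / (K j : ℝ) ^ 2 + 1 := by
      rw [Real.log_le_iff_le_exp h2]; exact h3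
    have h5 : 2 * L / (K j : ℝ) ^ 2 = L / (K j : ℝ) ^ 2 + L / (K j : ℝ) ^ 2 := by ring
    rw [h5]; linarith
  have hb0 : b 0 = ⌈1 / k ^ 2⌉₊ + 2 := rfl
  have hb0u : (b 0 : ℝ) ≤ 1 / k ^ 2 + 3 := by
    rw [hb0]; push_cast
    have : (⌈1 / k ^ 2⌉₊ : ℝ) < 1 / k ^ 2 + 1 := Nat.ceil_lt_add_one (by positivity)
    linarith
  have hmono : ∀ j ≤ J, b j ≤ b (j + 1) := by
    intro j hj
    rcases Nat.eq_zero_or_pos j with h0 | hpos
    · subst h0
      have h1 : (b 0 : ℝ) ≤ b 1 := by
        refine le_trans ?_ (hbl 0)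
        have h2 := hx 0 (Nat.zero_le _)
        have h3 : Real.exp (V + 15) ≤ Real.exp (L / (K 0 : ℝ) ^ 2) := Real.exp_le_exp.mpr h2
        refine le_trans ?_ h3
        rw [Real.exp_add, hexpV, ← hwL]
        have h4 : 16 ≤ Real.exp 15 := by have := Real.add_one_le_exp (15:ℝ); linarith
        have h5 : w ^ 2 ≤ w ^ 5 := pow_le_pow_right₀ hw1 (by norm_num)
        have h6 : 1 ≤ w ^ 5 := one_le_pow₀ hw1
        nlinarith
      exact_mod_cast h1
    · obtain ⟨i, hi⟩ := Nat.exists_eq_add_of_le' hpos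
      have hiJ : i < J := by omega
      rw [hi, hbs, hbs]
      apply Nat.succ_le_succ
      apply Nat.floor_le_floor
      apply Real.exp_le_exp.mpr
      have h1 := hstep i hiJ
      have h2 := hKpos (i + 1) (by omega)
      apply div_le_div_of_nonneg_left hLpos.le (by positivity)
      apply pow_le_pow_left₀ h2.le
      linarith
  refine ⟨J, K, b, ?_⟩
  refine ⟨hkpos, hk1, hk, ?_, ?_, hb0u, ?_, hmono, ?_, ?_, herr, ?_, hlb, ?_, hKJ⟩
  · rw [hb0]; omega
  · rw [hb0]; push_cast
    have := Nat.le_ceil (1 / k ^ 2)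
    linarith
  · have h1 : (10:ℝ) ≤ b 1 := by
      refine le_trans ?_ (hbl 0)
      have h2 := hx 0 (Nat.zero_le _)
      have := Real.add_one_le_exp (L / (K 0 : ℝ) ^ 2)
      linarith
    exact_mod_cast h1
  · -- var
    have hfl : ∀ j ≤ J, 3 ≤ ⌊Real.exp (L / (K j : ℝ) ^ 2)⌋₊ := by
      intro j hj
      apply Nat.le_floor
      have h1 := hx j hj
      have := Real.add_one_le_exp (L / (K j : ℝ) ^ 2)
      push_cast; linarith
    have hup : ∀ j ≤ J, R1 (b (j + 1)) ≤ V - 2 * Real.log (K j) + C := by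
      intro j hj
      have h1 := hR _ (hfl j hj)
      rw [← hbs] at h1
      have h2 := (abs_le.mp h1).2
      have h3 : Real.log ⌊Real.exp (L / (K j : ℝ) ^ 2)⌋₊ ≤ L / (K j : ℝ) ^ 2 := by
        rw [Real.log_le_iff_le_exp (by have := hfl j hj; positivity)]
        exact Nat.floor_le (Real.exp_pos _).le
      have h4 : 0 < Real.log ⌊Real.exp (L / (K j : ℝ) ^ 2)⌋₊ := by
        apply Real.log_pos
        have := hfl j hj
        exact_mod_cast (by omega : 1 < ⌊Real.exp (L / (K j : ℝ) ^ 2)⌋₊)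
      have h5 := Real.log_le_log h4 h3
      rw [Real.log_div hLpos.ne' (by have := hKpos j hj; positivity), Real.log_pow] at h5
      push_cast at h5
      linarith
    have hlo : ∀ j ≤ J, V - 2 * Real.log (K j) - Real.log 2 - C ≤ R1 (b (j + 1)) := by
      intro j hj
      have h1 := hR _ (hfl j hj)
      rw [← hbs] at h1
      have h2 := (abs_le.mp h1).1
      have hxj := hx j hj
      have h3 : L / (K j : ℝ) ^ 2 / 2 ≤ Real.log ⌊Real.exp (L / (K j : ℝ) ^ 2)⌋₊ := by
        rw [Real.le_log_iff_exp_le (by have := hfl j hj; positivity)]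
        have h4 : Real.exp (L / (K j : ℝ) ^ 2) - 1 ≤ ⌊Real.exp (L / (K j : ℝ) ^ 2)⌋₊ := by
          have := Nat.lt_floor_add_one (Real.exp (L / (K j : ℝ) ^ 2))
          linarith
        refine le_trans ?_ h4
        have h5 : Real.exp (L / (K j : ℝ) ^ 2) = Real.exp (L / (K j : ℝ) ^ 2 / 2) * Real.exp (L / (K j : ℝ) ^ 2 / 2) := by
          rw [← Real.exp_add]; congr 1; ring
        have h6 := Real.add_one_le_exp (L / (K j : ℝ) ^ 2 / 2)
        rw [h5]; nlinarith
      have h5 := Real.log_le_log (by linarith) h3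
      rw [Real.log_div (by have := hKpos j hj; positivity) (by norm_num),
        Real.log_div hLpos.ne' (by have := hKpos j hj; positivity), Real.log_pow] at h5
      push_cast at h5
      linarith
    intro j hj
    have hj1 := hup j hj
    have hlogKj : 0 ≤ Real.log (K j) := Real.log_nonneg (by have := hKge j hj; linarith)
    rcases Nat.eq_zero_or_pos j with h0 | hpos
    · subst h0
      have h1 := R1_nonneg (b 0)
      have h2 : e * V ^ 2 ≤ e * K 0 := mul_le_mul_of_nonneg_left hK0l he.le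
      linarith
    · obtain ⟨i, hi⟩ := Nat.exists_eq_add_of_le' hpos
      subst hi
      have hiJ : i < J := by omega
      have h1 := hlo i (by omega)
      have h2 : C4 * Real.log (K i) ≤ K (i + 1) := KK_lb i
      have h3 := (hlogK i hiJ).1
      have h4 : 0 ≤ Real.log (K i) := by linarith
      have h5 : e * (C4 * Real.log (K i)) ≤ e * K (i + 1) := mul_le_mul_of_nonneg_left h2 he.le
      have h6 : e * C4 = 200 * e + (3 + 2 * C) := by rw [hC4]; field_simp
      have h7 : e * (C4 * Real.log (K i)) = (200 * e + (3 + 2 * C)) * Real.log (K i) := by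
        rw [← h6]; ring
      have h8 : Real.log 2 ≤ 1 := by have := Real.log_two_lt_d9; linarith
      have h9 : (3 + 2 * C) * Real.log (K i) ≤ (200 * e + (3 + 2 * C)) * Real.log (K i) :=
        mul_le_mul_of_nonneg_right (by nlinarith) h4
      have h10 : 2 * C ≤ 2 * C * Real.log (K i) := by nlinarith
      nlinarith
  · intro j hj
    have h1 := hKge j hj
    have h2 : 1 / e ≤ 16 / e := by
      apply div_le_div_of_nonneg_right (by norm_num) he.le
    linarith
  · -- len
    have hlogpos : ∀ j ≤ J, 0 < (b (j + 1) : ℝ) := fun j hj => lt_of_lt_of_le (Real.exp_pos _) (hbl j)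
    have hpos : (0:ℝ) < ((4 ^ b 0 * ∏ j ∈ range (J + 1), b (j + 1) ^ (2 * K j) : ℕ) : ℝ) := by
      push_cast
      apply mul_pos (by positivity)
      apply prod_pos
      intro j hj
      rw [mem_range] at hj
      exact pow_pos (hlogpos j (by omega)) _
    rw [← Real.log_le_log_iff hpos (by positivity), Real.log_rpow hTpos]
    push_cast
    rw [Real.log_mul (by positivity) (by
      apply ne_of_gt; apply prod_pos; intro j hj; rw [mem_range] at hj
      exact pow_pos (hlogpos j (by omega)) _), Real.log_pow, Real.log_prod (by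
      intro j hj; rw [mem_range] at hj
      exact (pow_pos (hlogpos j (by omega)) _).ne')]
    have h1 : ∑ j ∈ range (J + 1), Real.log ((b (j + 1) : ℝ) ^ (2 * K j)) ≤
        ∑ j ∈ range (J + 1), 4 * L * (1 / (K j : ℝ)) := by
      apply sum_le_sum
      intro j hj
      rw [mem_range] at hj
      rw [Real.log_pow]
      have h2 := hlb j (by omega)
      have h3 := hKpos j (by omega)
      push_cast
      calc 2 * (K j : ℝ) * Real.log (b (j + 1)) ≤ 2 * (K j : ℝ) * (2 * L / (K j : ℝ) ^ 2) :=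
            mul_le_mul_of_nonneg_left h2 (by positivity)
        _ = 4 * L * (1 / (K j : ℝ)) := by field_simp; ring
    rw [← mul_sum] at h1
    have h2 : 4 * L * ∑ j ∈ range (J + 1), 1 / (K j : ℝ) ≤ 4 * L * (2 / K J) :=
      mul_le_mul_of_nonneg_left hrec (by positivity)
    have h3 : 4 * L * (2 / (K J : ℝ)) ≤ e / 2 * L := by
      have h4 : 16 / e ≤ (K J : ℝ) := by linarith
      have h5 : 16 ≤ e * K J := by
        have := mul_le_mul_of_nonneg_left h4 he.le
        calc (16:ℝ) = e * (16 / e) := by field_simp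
          _ ≤ _ := this
      have h6 : (0:ℝ) < K J := by linarith
      rw [show 4 * L * (2 / (K J : ℝ)) = L * (8 / (K J : ℝ)) by ring, mul_comm (e / 2) L]
      apply mul_le_mul_of_nonneg_left _ hLpos.le
      rw [div_le_iff₀ h6]; linarith
    have h4 : (b 0 : ℝ) * Real.log 4 ≤ e / 2 * L := by
      have h5 : 0 ≤ Real.log 4 := Real.log_nonneg (by norm_num)
      have h6 : (b 0 : ℝ) * Real.log 4 ≤ (w ^ 2 + 3) * Real.log 4 :=
        mul_le_mul_of_nonneg_right (by linarith) h5
      rw [hexpV] at v5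
      linarith
    linarith
  · rw [Real.le_log_iff_exp_le (lt_of_lt_of_le (Real.exp_pos _) (hbl J))]
    exact hbl J

end Pool.Agent.Q203.KZ
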